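import Mathlib

/-!
# Proper flat models of varieties over a number field

The data and their known properties.
-/

set_option autoImplicit false

namespace Pool.Agent.L0h15.RM

/-- the data: a number field `E` -/
structure Arith where
  /-- the smooth proper varieties over `E` -/
  Var : Type
  /-- the dimension -/
  dim : Var → ℕ
  /-- the proper flat models over the ring of integers of `E` -/
  Global : Var → Type
  /-- the model is a regular scheme -/
  GlobalRegular : ∀ X, Global X → Prop
  /-- the finite places of `E` -/
  Place : Type
  /-- the proper flat models over the local ring of the ring of integers at `v` -/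
  Model : Place → Var → Type
  /-- the model is a regular scheme -/
  Regular : ∀ v X, Model v X → Prop
  /-- the model is smooth -/
  Smooth : ∀ v X, Model v X → Prop
  /-- the model with the logarithmic structure given by the closed fibre is log smooth -/
  LogSmooth : ∀ v X, Model v X → Prop
  /-- the model with the logarithmic structure given by the closed fibre is log regular in the sense of
  Kato; for example a regular model such that the closed fibre has normal crossings -/
  LogRegular : ∀ v X, Model v X → Prop
  /-- the identity of the generic fibre extends to a morphism from the first model to the second -/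
  Dom : ∀ v X, Model v X → Model v X → Prop
  /-- vector bundles with a type of flags -/
  Bun : Var → Type
  /-- the flag bundle, for example the projective bundle of the lines in a vector bundle -/
  flag : ∀ X, Bun X → Var
  /-- the vector bundle extends to a vector bundle on the model -/
  Extends : ∀ v X, Bun X → Model v X → Prop
  /-- smooth closed subvarieties -/
  Sub : Var → Type
  /-- the dimension of a subvariety -/
  sdim : ∀ X, Sub X → ℕ
  /-- the blow-up in a subvariety -/
  bl : ∀ X, Sub X → Var
  /-- the closure of the subvariety in the model is a regular scheme -/
  RegularClosure : ∀ v X, Sub X → Model v X → Prop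
  /-- the product -/
  prod : Var → Var → Var
  /-- the varieties are birational -/
  Birational : Var → Var → Prop
  /-- there is a birational morphism from the first variety to the second -/
  BirationalMorphism : Var → Var → Prop

namespace Arith

variable (D : Arith)

/-- Question Q1 for `X`: there is a regular proper flat model over the ring of integers -/
def Question (X : D.Var) : Prop := ∃ M, D.GlobalRegular X M

/-- there is a regular proper flat model at `v` -/
def Reg (v : D.Place) (X : D.Var) : Prop := ∃ M, D.Regular v X M

/-- good reduction at `v` -/
def Good (v : D.Place) (X : D.Var) : Prop := ∃ M, D.Smooth v X M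

/-- logarithmic good reduction at `v`, for example semistable reduction -/
def LogGood (v : D.Place) (X : D.Var) : Prop := ∃ M, D.LogSmooth v X M

/-- there is a log regular model at `v` -/
def LogReg (v : D.Place) (X : D.Var) : Prop := ∃ M, D.LogRegular v X M

/-- `W` is obtained from `X` by finitely many blow-ups in smooth subvarieties of dimension at most one -/
inductive BlowUps (X : D.Var) : D.Var → Prop
  | refl : BlowUps X X
  | step (W : D.Var) (Z : D.Sub W) (h : BlowUps X W) (h' : D.sdim W Z ≤ 1) : BlowUps X (D.bl W Z)

/-- general known properties of models -/
structure General : Prop where
  /-- models exist (Nagata) -/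
  exists_model : ∀ v X, Nonempty (D.Model v X)
  dom_trans : ∀ v X L M N, D.Dom v X L M → D.Dom v X M N → D.Dom v X L N
  /-- spreading out, and glueing over the ring of integers -/
  glue : ∀ X, (∀ v, D.Reg v X) → D.Question X
  /-- localization -/
  localize : ∀ X, D.Question X → ∀ v, D.Reg v X
  /-- the flattening theorem of Raynaud and Gruson, for a coherent sheaf which extends the bundle -/
  flatten : ∀ v X V M, ∃ N, D.Dom v X N M ∧ D.Extends v X V N
  pullback : ∀ v X V M N, D.Dom v X N M → D.Extends v X V M → D.Extends v X V N

/-- resolution of singularities in small dimensions -/
structure Resolution : Prop where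
  /-- Cossart and Piltant: resolution of quasi-excellent schemes of dimension three; Cossart, Jannsen and
  Saito: the closed fibre can be made a divisor with normal crossings -/
  dim_two : ∀ v X M, D.dim X ≤ 2 → ∃ N, D.Dom v X N M ∧ D.LogRegular v X N
  /-- Cossart, Jannsen and Saito: embedded resolution for excellent subschemes of dimension two of a
  regular scheme, here the closure of a curve or of a point -/
  embedded : ∀ v X Z M, D.sdim X Z ≤ 1 → D.Regular v X M →
    ∃ N, D.Regular v X N ∧ D.RegularClosure v X Z N
  /-- Kato, Niziol: resolution of log regular schemes -/
  toric : ∀ v X M, D.LogRegular v X M → ∃ N, D.Dom v X N M ∧ D.Regular v X N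

/-- Hironaka's elimination of indeterminacies, for varieties of dimension three -/
def Hironaka : Prop := ∀ X Y, D.dim X = 3 → D.Birational X Y →
  ∃ W, D.BlowUps X W ∧ D.BirationalMorphism W Y

/-- known properties of constructions -/
structure Constructions : Prop where
  smooth_logSmooth : ∀ v X M, D.Smooth v X M → D.LogSmooth v X M
  logSmooth_logRegular : ∀ v X M, D.LogSmooth v X M → D.LogRegular v X M
  /-- flag bundles are smooth over the base -/
  flag_model : ∀ v X V M, D.LogRegular v X M → D.Extends v X V M → D.LogReg v (D.flag X V)
  /-- the blow-up of a regular scheme in a regular closed subscheme -/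
  blow : ∀ v X Z M, D.Regular v X M → D.RegularClosure v X Z M → D.Reg v (D.bl X Z)
  /-- products over the local ring: smooth over regular is regular -/
  prod_smooth : ∀ v X Y M N, D.Smooth v X M → D.Regular v Y N → D.Reg v (D.prod X Y)
  /-- fibre products of logarithmic schemes: log smooth over log regular is log regular -/
  prod_log : ∀ v X Y M N, D.LogSmooth v X M → D.LogRegular v Y N → D.LogReg v (D.prod X Y)
  swap_log : ∀ v X Y, D.LogReg v (D.prod X Y) → D.LogReg v (D.prod Y X)
  swap : ∀ v X Y, D.Reg v (D.prod X Y) → D.Reg v (D.prod Y X)

/-- the smallest class which contains the varieties of dimension at most two, the flag bundles over these,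
the varieties with logarithmic good reduction at `v`, and the products of the latter with members -/
inductive LogClass (v : D.Place) : D.Var → Prop
  | small (X : D.Var) (h : D.dim X ≤ 2) : LogClass v X
  | flag (X : D.Var) (V : D.Bun X) (h : D.dim X ≤ 2) : LogClass v (D.flag X V)
  | logGood (X : D.Var) (h : D.LogGood v X) : LogClass v X
  | prod (X Y : D.Var) (h : D.LogGood v X) (h' : LogClass v Y) : LogClass v (D.prod X Y)
  | swap (X Y : D.Var) (h : LogClass v (D.prod X Y)) : LogClass v (D.prod Y X)

/-- the smallest class which contains `LogClass v`, the blow-ups of members in smooth subvarieties of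
dimension at most one, and the products of members with varieties with good reduction at `v` -/
inductive Class (v : D.Place) : D.Var → Prop
  | log (X : D.Var) (h : D.LogClass v X) : Class v X
  | blow (X : D.Var) (Z : D.Sub X) (h : Class v X) (h' : D.sdim X Z ≤ 1) : Class v (D.bl X Z)
  | prod (X Y : D.Var) (h : D.Good v X) (h' : Class v Y) : Class v (D.prod X Y)
  | swap (X Y : D.Var) (h : Class v (D.prod X Y)) : Class v (D.prod Y X)

end Arith

end Pool.Agent.L0h15.RM
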