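import Pool.Agent.L0h15.RM.Ax

/-!
# New cases of the existence of regular models
-/

set_option autoImplicit false

namespace Pool.Agent.L0h15.RM

namespace Arith

variable {D : Arith}

theorem reg_of_logReg (hR : D.Resolution) {v : D.Place} {X : D.Var} (h : D.LogReg v X) :
    D.Reg v X := by
  obtain ⟨M, hM⟩ := h
  obtain ⟨N, _, hN⟩ := hR.toric v X M hM
  exact ⟨N, hN⟩

theorem logReg_small (hG : D.General) (hR : D.Resolution) {v : D.Place} {X : D.Var}
    (h : D.dim X ≤ 2) : D.LogReg v X := by
  obtain ⟨M⟩ := hG.exists_model v X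
  obtain ⟨N, _, hN⟩ := hR.dim_two v X M h
  exact ⟨N, hN⟩

theorem logReg_flag (hG : D.General) (hR : D.Resolution) (hC : D.Constructions) {v : D.Place}
    {X : D.Var} (V : D.Bun X) (h : D.dim X ≤ 2) : D.LogReg v (D.flag X V) := by
  obtain ⟨L⟩ := hG.exists_model v X
  obtain ⟨M, _, hM⟩ := hG.flatten v X V L
  obtain ⟨N, hNM, hN⟩ := hR.dim_two v X M h
  exact hC.flag_model v X V N hN (hG.pullback v X V M N hNM hM)

theorem logReg_of_logGood (hC : D.Constructions) {v : D.Place} {X : D.Var} (h : D.LogGood v X) :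
    D.LogReg v X := by
  obtain ⟨M, hM⟩ := h
  exact ⟨M, hC.logSmooth_logRegular v X M hM⟩

theorem logGood_of_good (hC : D.Constructions) {v : D.Place} {X : D.Var} (h : D.Good v X) :
    D.LogGood v X := by
  obtain ⟨M, hM⟩ := h
  exact ⟨M, hC.smooth_logSmooth v X M hM⟩

theorem logReg_prod (hC : D.Constructions) {v : D.Place} {X Y : D.Var} (h : D.LogGood v X)
    (h' : D.LogReg v Y) : D.LogReg v (D.prod X Y) := by
  obtain ⟨M, hM⟩ := h
  obtain ⟨N, hN⟩ := h'
  exact hC.prod_log v X Y M N hM hN

theorem logReg_of_logClass (hG : D.General) (hR : D.Resolution) (hC : D.Constructions)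
    {v : D.Place} {X : D.Var} (h : D.LogClass v X) : D.LogReg v X := by
  induction h with
  | small X h => exact logReg_small hG hR h
  | flag X V h => exact logReg_flag hG hR hC V h
  | logGood X h => exact logReg_of_logGood hC h
  | prod X Y h _ ih => exact logReg_prod hC h ih
  | swap X Y _ ih => exact hC.swap_log v X Y ih

theorem reg_blow (hR : D.Resolution) (hC : D.Constructions) {v : D.Place} {X : D.Var}
    (Z : D.Sub X) (h : D.Reg v X) (h' : D.sdim X Z ≤ 1) : D.Reg v (D.bl X Z) := by
  obtain ⟨M, hM⟩ := h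
  obtain ⟨N, hN, hZ⟩ := hR.embedded v X Z M h' hM
  exact hC.blow v X Z N hN hZ

theorem reg_prod (hC : D.Constructions) {v : D.Place} {X Y : D.Var} (h : D.Good v X)
    (h' : D.Reg v Y) : D.Reg v (D.prod X Y) := by
  obtain ⟨M, hM⟩ := h
  obtain ⟨N, hN⟩ := h'
  exact hC.prod_smooth v X Y M N hM hN

theorem reg_of_class (hG : D.General) (hR : D.Resolution) (hC : D.Constructions)
    {v : D.Place} {X : D.Var} (h : D.Class v X) : D.Reg v X := by
  induction h with
  | log X h => exact reg_of_logReg hR (logReg_of_logClass hG hR hC h)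
  | blow X Z _ h' ih => exact reg_blow hR hC Z ih h'
  | prod X Y h _ ih => exact reg_prod hC h ih
  | swap X Y _ ih => exact hC.swap v X Y ih

theorem question_of_class (hG : D.General) (hR : D.Resolution) (hC : D.Constructions)
    {X : D.Var} (h : ∀ v, D.Class v X) : D.Question X :=
  hG.glue X fun v => reg_of_class hG hR hC (h v)

theorem question_blow (hG : D.General) (hR : D.Resolution) (hC : D.Constructions)
    {X : D.Var} (Z : D.Sub X) (h : D.Question X) (h' : D.sdim X Z ≤ 1) : D.Question (D.bl X Z) :=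
  hG.glue _ fun v => reg_blow hR hC Z (hG.localize X h v) h'

theorem question_prod (hG : D.General) (hC : D.Constructions)
    {X Y : D.Var} (h : ∀ v, D.Good v X) (h' : D.Question Y) : D.Question (D.prod X Y) :=
  hG.glue _ fun v => reg_prod hC (h v) (hG.localize Y h' v)

theorem question_blowUps (hG : D.General) (hR : D.Resolution) (hC : D.Constructions)
    {X W : D.Var} (h : D.BlowUps X W) (hX : D.Question X) : D.Question W := by
  induction h with
  | refl => exact hX
  | step W Z _ h' ih => exact question_blow hG hR hC Z ih h'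

theorem question_birational (hG : D.General) (hR : D.Resolution) (hC : D.Constructions)
    (hH : D.Hironaka) {X Y : D.Var} (h3 : D.dim X = 3) (h : D.Birational X Y)
    (hX : D.Question X) : ∃ W, D.BirationalMorphism W Y ∧ D.Question W := by
  obtain ⟨W, hW, hm⟩ := hH X Y h3 h
  exact ⟨W, hm, question_blowUps hG hR hC hW hX⟩

end Arith

end Pool.Agent.L0h15.RM
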